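import Pool.Agent.Helper10.SQ.C4
import Pool.Agent.Helper10.SQ.Tail

/-! Squarefree palindromes with an error term (MP_540de1_nt): the counts. -/

set_option autoImplicit false

namespace Pool.Agent.Helper62.SE

open Finset Pool.Agent.Helper10 Pool.Agent.Helper10.P5 Pool.Agent.Helper10.P4 Pool.Agent.Helper10.SQ

/-- the number of palindromes with `2 * n + 1` digits which are divisible by `d ^ 2` but neither by `4` nor
by `25` -/
noncomputable def G (n d : ℕ) : ℕ :=
  ((Pal n).filter (fun P => ¬ 4 ∣ P ∧ ¬ 25 ∣ P ∧ d ^ 2 ∣ P)).card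

end Pool.Agent.Helper62.SE
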