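import Pool.Agent.Helper62.SE.Defs
import Pool.Agent.Helper12.SE.L5

/-! Squarefree palindromes with an error term: small moduli. -/

set_option autoImplicit false

namespace Pool.Agent.Helper62.SE

open Finset Pool.Agent.Helper10 Pool.Agent.Helper10.P5 Pool.Agent.Helper10.P4 Pool.Agent.Helper10.SQ

/-- E1: small moduli. -/
theorem E1 : ∃ ρ : ℝ, 0 < ρ ∧ ρ < 1 ∧ ∀ n k d : ℕ, 2 ≤ n → 1 ≤ d → d.Coprime 10 →
    d ^ 2 ≤ 10 ^ k → |(G n d : ℝ) - 34 / 5 * 10 ^ n / (d : ℝ) ^ 2| ≤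
      68 * (10 ^ n * ((d : ℝ) ^ 2 * ρ ^ ((n - 2) / (2 * k + 3)))) := by
  classical
  obtain ⟨ρ, hρ0, hρ1, hL⟩ := Pool.Agent.Helper12.SE.L5
  refine ⟨ρ, hρ0, hρ1, fun n k d hn hd hcop hdk => ?_⟩
  obtain ⟨T, hT, hTcard⟩ := exists_goodPairs
  have hkey : G n d = ∑ x ∈ T,
      ((Pal n).filter (fun P => P % 10 = x.1 ∧ P / 10 % 10 = x.2 ∧
        P ≡ 0 [MOD d ^ 2])).card := by
    unfold G
    have hmaps : ((((Pal n).filter (fun P => ¬ 4 ∣ P ∧ ¬ 25 ∣ P ∧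
        d ^ 2 ∣ P)) : Finset ℕ) : Set ℕ).MapsTo
        (fun P => (P % 10, P / 10 % 10)) (T : Set (ℕ × ℕ)) := by
      intro P hP
      rw [Finset.mem_coe, Finset.mem_filter] at hP
      have h0 := pal_mod_ten_ne_zero hP.1
      rw [Finset.mem_coe, hT]
      refine ⟨Nat.mod_lt _ (by norm_num), Nat.mod_lt _ (by norm_num), h0, ?_, ?_⟩
      · intro h
        exact hP.2.1 (by simp only at h; omega)
      · intro h
        exact hP.2.2.1 (by simp only at h; omega)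
    rw [Finset.card_eq_sum_card_fiberwise hmaps]
    apply Finset.sum_congr rfl
    intro x hx
    congr 1
    rw [Finset.filter_filter]
    apply Finset.filter_congr
    intro P hP
    rw [hT] at hx
    obtain ⟨hx1, hx2, hx3, hx4, hx5⟩ := hx
    constructor
    · rintro ⟨⟨h1, h2, h3⟩, h4⟩
      have h5 : P % 10 = x.1 := congrArg Prod.fst h4
      have h6 : P / 10 % 10 = x.2 := congrArg Prod.snd h4
      exact ⟨h5, h6, (Nat.modEq_zero_iff_dvd).2 h3⟩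
    · rintro ⟨h1, h2, h3⟩
      refine ⟨⟨?_, ?_, (Nat.modEq_zero_iff_dvd).1 h3⟩, Prod.ext h1 h2⟩
      · intro h
        exact hx4 (by omega)
      · intro h
        exact hx5 (by omega)
  have hsum : (34 / 5 * 10 ^ n / (d : ℝ) ^ 2 : ℝ) = ∑ x ∈ T, (10 : ℝ) ^ n / (10 * ((d ^ 2 : ℕ) : ℝ)) := by
    rw [Finset.sum_const, hTcard, nsmul_eq_mul]
    push_cast
    have hd0 : (d : ℝ) ≠ 0 := by
      have : d ≠ 0 := by omega
      exact_mod_cast this
    field_simp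
    norm_num
  rw [hkey, hsum]
  push_cast
  rw [← Finset.sum_sub_distrib]
  refine (Finset.abs_sum_le_sum_abs _ _).trans ?_
  have hbd : ∀ x ∈ T, |(((Pal n).filter (fun P => P % 10 = x.1 ∧ P / 10 % 10 = x.2 ∧
        P ≡ 0 [MOD d ^ 2])).card : ℝ) - 10 ^ n / (10 * (d : ℝ) ^ 2)| ≤
        10 ^ n * ((d : ℝ) ^ 2 * ρ ^ ((n - 2) / (2 * k + 3))) := by
    intro x hx
    rw [hT] at hx
    have h := hL n (d ^ 2) k x.1 x.2 0 (Nat.Coprime.pow_left 2 hcop) hdk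
      (Nat.pos_of_ne_zero hx.2.2.1) hx.1 hx.2.1 hn
    push_cast at h
    exact h
  refine (Finset.sum_le_sum hbd).trans (le_of_eq ?_)
  rw [Finset.sum_const, hTcard, nsmul_eq_mul]
  norm_num

end Pool.Agent.Helper62.SE
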