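import Pool.Agent.Helper62.SE.Defs

/-! Squarefree palindromes with an error term: middle moduli. -/

set_option autoImplicit false

namespace Pool.Agent.Helper62.SE

open Finset Pool.Agent.Helper10 Pool.Agent.Helper10.P5 Pool.Agent.Helper10.P4 Pool.Agent.Helper10.SQ

private lemma rho_small : (10 : ℝ) ^ 4 * rho ^ 100000 ≤ 1 := by
  have h1 : rho ≤ Real.exp (-(2 / 15125)) := by
    have := Real.add_one_le_exp (-(2 / 15125 : ℝ))
    refine le_trans (le_of_eq ?_) this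
    unfold rho
    norm_num
  have h0 : (0 : ℝ) ≤ rho := by
    unfold rho
    norm_num
  have h2 : rho ^ 100000 ≤ Real.exp (-13) := by
    calc rho ^ 100000 ≤ Real.exp (-(2 / 15125)) ^ 100000 := pow_le_pow_left₀ h0 h1 _
      _ = Real.exp ((100000 : ℕ) * (-(2 / 15125))) := (Real.exp_nat_mul _ _).symm
      _ ≤ Real.exp (-13) := by
          apply Real.exp_le_exp.2
          norm_num
  have h3 : (10 : ℝ) ^ 4 ≤ Real.exp 13 := by
    have h4 : (2.7 : ℝ) ≤ Real.exp 1 := by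
      have := Real.exp_one_gt_d9
      linarith
    calc (10 : ℝ) ^ 4 ≤ (2.7 : ℝ) ^ 13 := by norm_num
      _ ≤ Real.exp 1 ^ 13 := pow_le_pow_left₀ (by norm_num) h4 _
      _ = Real.exp 13 := by
          rw [← Real.exp_nat_mul]
          norm_num
  calc (10 : ℝ) ^ 4 * rho ^ 100000 ≤ Real.exp 13 * Real.exp (-13) :=
        mul_le_mul h3 h2 (pow_nonneg h0 _) (Real.exp_pos _).le
    _ = 1 := by
        rw [← Real.exp_add]
        norm_num

private lemma rho_pow (s : ℕ) : (10 : ℝ) ^ (3 * s + 4) * rho ^ (100000 * s) ≤ 10 ^ 4 / 10 ^ s := by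
  have h0 : (0 : ℝ) ≤ rho := by
    unfold rho
    norm_num
  rw [le_div_iff₀ (by positivity)]
  have e : (10 : ℝ) ^ (3 * s + 4) * rho ^ (100000 * s) * 10 ^ s =
      10 ^ 4 * ((10 : ℝ) ^ 4 * rho ^ 100000) ^ s := by
    rw [mul_pow, ← pow_mul, ← pow_mul, pow_add]
    have : (10 : ℝ) ^ (4 * s) = 10 ^ (3 * s) * 10 ^ s := by
      rw [← pow_add]
      congr 1
      ring
    rw [this]
    ring
  rw [e]
  calc (10 : ℝ) ^ 4 * ((10 : ℝ) ^ 4 * rho ^ 100000) ^ s ≤ 10 ^ 4 * 1 := by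
        apply mul_le_mul_of_nonneg_left _ (by positivity)
        exact pow_le_one₀ (by positivity) rho_small
    _ = 10 ^ 4 := mul_one _

private lemma blocks (f : ℕ → ℝ) (j K : ℕ) (hjK : j ≤ K) :
    ∑ d ∈ Ico (10 ^ j) (10 ^ K), f d =
      ∑ k ∈ Ico j K, ∑ d ∈ Ico (10 ^ k) (10 ^ (k + 1)), f d := by
  induction K, hjK using Nat.le_induction with
  | base => simp
  | succ K hK ih =>
    rw [Finset.sum_Ico_succ_top hK, ← ih]
    exact (Finset.sum_Ico_consecutive f (Nat.pow_le_pow_right (by norm_num) hK)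
      (Nat.pow_le_pow_right (by norm_num) (Nat.le_succ K))).symm

/-- E2: middle moduli. -/
theorem E2 (n s : ℕ) (hs : 1 ≤ s) (hn : 4000000 * s ≤ n) :
    ∑ d ∈ (Ico (10 ^ (200000 * s)) (10 ^ (n - n / 10))).filter (fun d => d.Coprime 10),
      ((cl n (d ^ 2) 0 : ℕ) : ℝ) ≤ n * 10 ^ (n + 6) / 10 ^ s := by
  rw [Finset.sum_filter, blocks _ _ _ (by omega)]
  have hb : ∀ k ∈ Ico (200000 * s) (n - n / 10), ∑ d ∈ Ico (10 ^ k) (10 ^ (k + 1)),
      (if d.Coprime 10 then ((cl n (d ^ 2) 0 : ℕ) : ℝ) else 0) ≤ 10 ^ (n + 6) / 10 ^ s := by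
    intro k hk
    rw [Finset.mem_Ico] at hk
    rw [← Finset.sum_filter]
    have h := sqA6 n k s (100000 * s) (by omega) (by omega) (by omega) (by omega) (fun _ => 0)
    refine h.trans ?_
    have h2 : (9 : ℝ) / 10 ^ s + 2 * 10 ^ (3 * s + 4) * rho ^ (100000 * s) ≤
        20009 / 10 ^ s := by
      have h3 := rho_pow s
      calc (9 : ℝ) / 10 ^ s + 2 * 10 ^ (3 * s + 4) * rho ^ (100000 * s)
          = 9 / 10 ^ s + 2 * (10 ^ (3 * s + 4) * rho ^ (100000 * s)) := by ring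
        _ ≤ 9 / 10 ^ s + 2 * (10 ^ 4 / 10 ^ s) := by linarith
        _ = 20009 / 10 ^ s := by ring
    calc 2 * (10 : ℝ) ^ (n + 1) * (9 / 10 ^ s + 2 * 10 ^ (3 * s + 4) * rho ^ (100000 * s))
        ≤ 2 * (10 : ℝ) ^ (n + 1) * (20009 / 10 ^ s) :=
          mul_le_mul_of_nonneg_left h2 (by positivity)
      _ = (400180 * 10 ^ n) / 10 ^ s := by
          rw [pow_succ]
          ring
      _ ≤ 10 ^ (n + 6) / 10 ^ s := by
          apply div_le_div_of_nonneg_right _ (by positivity)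
          rw [pow_add]
          have : (0 : ℝ) < 10 ^ n := by positivity
          nlinarith
  refine (Finset.sum_le_sum hb).trans ?_
  rw [Finset.sum_const, Nat.card_Ico, nsmul_eq_mul, mul_div_assoc]
  apply mul_le_mul_of_nonneg_right _ (by positivity)
  exact_mod_cast (by omega : n - n / 10 - 200000 * s ≤ n)

end Pool.Agent.Helper62.SE
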