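import Pool.Agent.Helper62.SE.E5

/-! Squarefree palindromes with an error term: large moduli. -/

set_option autoImplicit false

namespace Pool.Agent.Helper62.SE

open Finset Pool.Agent.Helper10 Pool.Agent.Helper10.P5 Pool.Agent.Helper10.P4 Pool.Agent.Helper10.SQ

private lemma count_le (n P : ℕ) (hP0 : P ≠ 0) (hP : P < 10 ^ (2 * n + 2)) :
    ((Ico (10 ^ (n - n / 10)) (10 ^ (n + 1))).filter (fun d => d ^ 2 ∣ P)).card ≤
      10 ^ (n / 10 + 1) := by
  obtain ⟨a, b, hab, ha⟩ := Nat.sq_mul_squarefree P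
  have hb : b ≠ 0 := by
    rintro rfl
    apply hP0
    rw [← hab]
    ring
  have hblt : b < 10 ^ (n + 1) := by
    have h1 : b ^ 2 ≤ P := by
      rw [← hab]
      exact Nat.le_mul_of_pos_right _ (Nat.pos_of_ne_zero ha.ne_zero)
    have h2 : b ^ 2 < (10 ^ (n + 1)) ^ 2 := by
      rw [← pow_mul]
      calc b ^ 2 ≤ P := h1
        _ < 10 ^ (2 * n + 2) := hP
        _ = 10 ^ ((n + 1) * 2) := by ring_nf
    exact lt_of_pow_lt_pow_left₀ 2 (by positivity) h2
  rw [← Finset.card_range (10 ^ (n / 10 + 1))]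
  apply Finset.card_le_card_of_injOn (fun d => b / d)
  · intro d hd
    rw [Finset.mem_coe, Finset.mem_filter, Finset.mem_Ico] at hd
    rw [Finset.mem_coe, Finset.mem_range]
    apply Nat.div_lt_of_lt_mul
    calc b < 10 ^ (n + 1) := hblt
      _ = 10 ^ (n - n / 10) * 10 ^ (n / 10 + 1) := by
          rw [← pow_add]
          congr 1
          omega
      _ ≤ d * 10 ^ (n / 10 + 1) := Nat.mul_le_mul_right _ hd.1.1
  · intro d hd d' hd' h
    rw [Finset.mem_coe, Finset.mem_filter, ← hab, sq_dvd_iff ha hb] at hd hd'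
    have h1 : b / d * d = b := Nat.div_mul_cancel hd.2
    have h2 : b / d' * d' = b := Nat.div_mul_cancel hd'.2
    have h3 : b / d ≠ 0 := by
      intro h4
      rw [h4, zero_mul] at h1
      exact hb h1.symm
    have h5 : b / d = b / d' := h
    rw [← h5] at h2
    exact Nat.eq_of_mul_eq_mul_left (Nat.pos_of_ne_zero h3) (h1.trans h2.symm)

/-- E3: large moduli. -/
theorem E3 (n : ℕ) :
    ∑ P ∈ Pal n, ((Ico (10 ^ (n - n / 10)) (10 ^ (n + 1))).filter (fun d => d ^ 2 ∣ P)).card ≤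
      10 ^ (3 * (n / 10) + n / 2 + 3) := by
  classical
  have h1 : ∀ P ∈ Pal n,
      ((Ico (10 ^ (n - n / 10)) (10 ^ (n + 1))).filter (fun d => d ^ 2 ∣ P)).card ≤
        if ∃ d : ℕ, 10 ^ (n - n / 10) ≤ d ∧ d ^ 2 ∣ P then 10 ^ (n / 10 + 1) else 0 := by
    intro P hP
    split_ifs with h
    · exact count_le n P (pal_facts hP).1 (pal_facts hP).2
    · push Not at h
      rw [Nat.le_zero, Finset.card_eq_zero, Finset.filter_eq_empty_iff]
      intro d hd
      rw [Finset.mem_Ico] at hd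
      exact h d hd.1
  refine (Finset.sum_le_sum h1).trans ?_
  rw [← Finset.sum_filter, Finset.sum_const, smul_eq_mul]
  have h2 := sqB1 n (n / 10) (by omega)
  calc _ ≤ 10 ^ (2 * (n / 10) + 1) * 10 ^ (n / 2 + 1) * 10 ^ (n / 10 + 1) :=
        Nat.mul_le_mul_right _ (by convert h2)
    _ = 10 ^ (3 * (n / 10) + n / 2 + 3) := by
        rw [← pow_add, ← pow_add]
        congr 1
        omega

end Pool.Agent.Helper62.SE
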