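import Pool.Agent.Helper62.SE.Defs

/-! The sieve identity for the squarefree palindromes. -/

set_option autoImplicit false

namespace Pool.Agent.Helper62.SE

open Finset Pool.Agent.Helper10 Pool.Agent.Helper10.P5 Pool.Agent.Helper10.P4 Pool.Agent.Helper10.SQ

lemma sq_dvd_iff {a b d : ℕ} (ha : Squarefree a) (hb : b ≠ 0) :
    d ^ 2 ∣ b ^ 2 * a ↔ d ∣ b := by
  have ha0 : a ≠ 0 := ha.ne_zero
  constructor
  · intro h
    have hd0 : d ≠ 0 := by
      rintro rfl
      have : b ^ 2 * a = 0 := by simpa using h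
      rcases Nat.mul_eq_zero.1 this with h1 | h1
      · exact hb (pow_eq_zero_iff (by norm_num) |>.1 h1)
      · exact ha0 h1
    rw [← Nat.factorization_le_iff_dvd hd0 hb]
    intro p
    have h1 := (Nat.factorization_le_iff_dvd (pow_ne_zero 2 hd0)
      (mul_ne_zero (pow_ne_zero 2 hb) ha0)).2 h p
    rw [Nat.factorization_mul (pow_ne_zero 2 hb) ha0, Nat.factorization_pow,
      Nat.factorization_pow] at h1
    simp only [Finsupp.coe_add, Finsupp.coe_smul, Pi.add_apply, Pi.smul_apply, smul_eq_mul] at h1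
    have h2 := (Nat.squarefree_iff_factorization_le_one ha0).1 ha p
    omega
  · intro h
    exact Dvd.dvd.mul_right (pow_dvd_pow_of_dvd h 2) a

private lemma moebius_divisors (b : ℕ) (hb : b ≠ 0) :
    ∑ d ∈ b.divisors, (ArithmeticFunction.moebius d : ℝ) = if b = 1 then 1 else 0 := by
  have h := congrArg (fun f : ArithmeticFunction ℤ => f b) ArithmeticFunction.coe_zeta_mul_moebius
  simp only [ArithmeticFunction.coe_zeta_mul_apply, ArithmeticFunction.one_apply] at h
  have h2 := congrArg (fun x : ℤ => (x : ℝ)) h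
  push_cast at h2
  exact h2

private lemma point (n P : ℕ) (hP0 : P ≠ 0) (hP : P < 10 ^ (2 * n + 2)) :
    (if Squarefree P then (1 : ℝ) else 0) =
      ∑ d ∈ (range (10 ^ (n + 1))).filter (fun d => d.Coprime 10),
        (ArithmeticFunction.moebius d : ℝ) *
          (if ¬ 4 ∣ P ∧ ¬ 25 ∣ P ∧ d ^ 2 ∣ P then 1 else 0) := by
  classical
  by_cases h4 : 4 ∣ P
  · have hn : ¬ Squarefree P := fun h => by
      have := h 2 (by norm_num; exact h4)
      exact absurd (Nat.isUnit_iff.1 this) (by norm_num)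
    rw [if_neg hn]
    symm
    apply Finset.sum_eq_zero
    intro d _
    rw [if_neg (fun h => h.1 h4), mul_zero]
  by_cases h25 : 25 ∣ P
  · have hn : ¬ Squarefree P := fun h => by
      have := h 5 (by norm_num; exact h25)
      exact absurd (Nat.isUnit_iff.1 this) (by norm_num)
    rw [if_neg hn]
    symm
    apply Finset.sum_eq_zero
    intro d _
    rw [if_neg (fun h => h.2.1 h25), mul_zero]
  obtain ⟨a, b, hab, ha⟩ := Nat.sq_mul_squarefree P
  have hb : b ≠ 0 := by
    rintro rfl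
    apply hP0
    rw [← hab]
    ring
  have hb10 : b.Coprime 10 := by
    have h2 : ¬ 2 ∣ b := fun h => h4 (by
      rw [← hab]
      exact Dvd.dvd.mul_right (pow_dvd_pow_of_dvd h 2) a)
    have h5 : ¬ 5 ∣ b := fun h => h25 (by
      rw [← hab]
      exact Dvd.dvd.mul_right (pow_dvd_pow_of_dvd h 2) a)
    rw [show (10 : ℕ) = 2 * 5 by norm_num]
    apply Nat.Coprime.mul_right
    · exact ((Nat.Prime.coprime_iff_not_dvd Nat.prime_two).2 h2).symm
    · exact ((Nat.Prime.coprime_iff_not_dvd Nat.prime_five).2 h5).symm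
  have hblt : b < 10 ^ (n + 1) := by
    have h1 : b ^ 2 ≤ P := by
      rw [← hab]
      exact Nat.le_mul_of_pos_right _ (Nat.pos_of_ne_zero ha.ne_zero)
    have h2 : b ^ 2 < (10 ^ (n + 1)) ^ 2 := by
      rw [← pow_mul]
      calc b ^ 2 ≤ P := h1
        _ < 10 ^ (2 * n + 2) := hP
        _ = 10 ^ ((n + 1) * 2) := by ring_nf
    exact lt_of_pow_lt_pow_left₀ 2 (by positivity) h2
  have hsq : Squarefree P ↔ b = 1 := by
    constructor
    · intro h
      have h1 := h b (by rw [← hab, ← pow_two]; exact Dvd.intro a rfl)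
      exact Nat.isUnit_iff.1 h1
    · rintro rfl
      rw [← hab, one_pow, one_mul]
      exact ha
  have hset : ((range (10 ^ (n + 1))).filter (fun d => d.Coprime 10)).filter
      (fun d => d ^ 2 ∣ P) = b.divisors := by
    ext d
    rw [Finset.mem_filter, Finset.mem_filter, Finset.mem_range, Nat.mem_divisors, ← hab,
      sq_dvd_iff ha hb]
    constructor
    · rintro ⟨-, h⟩
      exact ⟨h, hb⟩
    · rintro ⟨h, -⟩
      refine ⟨⟨lt_of_le_of_lt (Nat.le_of_dvd (Nat.pos_of_ne_zero hb) h) hblt, ?_⟩, h⟩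
      exact Nat.Coprime.coprime_dvd_left h hb10
  have e1 : ∑ d ∈ (range (10 ^ (n + 1))).filter (fun d => d.Coprime 10),
        (ArithmeticFunction.moebius d : ℝ) *
          (if ¬ 4 ∣ P ∧ ¬ 25 ∣ P ∧ d ^ 2 ∣ P then 1 else 0) =
      ∑ d ∈ ((range (10 ^ (n + 1))).filter (fun d => d.Coprime 10)).filter
        (fun d => d ^ 2 ∣ P), (ArithmeticFunction.moebius d : ℝ) := by
    rw [Finset.sum_filter (s := (range (10 ^ (n + 1))).filter (fun d => d.Coprime 10))]
    apply Finset.sum_congr rfl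
    intro d _
    by_cases h : d ^ 2 ∣ P
    · rw [if_pos ⟨h4, h25, h⟩, if_pos h, mul_one]
    · rw [if_neg (fun h' => h h'.2.2), if_neg h, mul_zero]
  rw [e1, hset, moebius_divisors b hb]
  by_cases h : b = 1
  · rw [if_pos h, if_pos (hsq.2 h)]
  · rw [if_neg h, if_neg (fun h' => h (hsq.1 h'))]

lemma pal_facts {n P : ℕ} (hP : P ∈ Pal n) : P ≠ 0 ∧ P < 10 ^ (2 * n + 2) := by
  classical
  constructor
  · intro h
    exact pal_mod_ten_ne_zero hP (by rw [h])
  · unfold Pal at hP
    rw [Finset.mem_filter, Finset.mem_range] at hP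
    exact hP.1.trans (Nat.pow_lt_pow_right (by norm_num) (by omega))

private lemma identity (n : ℕ) : (((Pal n).filter (fun P => Squarefree P)).card : ℝ) =
    ∑ d ∈ (range (10 ^ (n + 1))).filter (fun d => d.Coprime 10),
      (ArithmeticFunction.moebius d : ℝ) * (G n d : ℝ) := by
  classical
  rw [Finset.card_filter]
  push_cast
  rw [Finset.sum_congr rfl (fun P hP => point n P (pal_facts hP).1 (pal_facts hP).2),
    Finset.sum_comm]
  apply Finset.sum_congr rfl
  intro d _
  rw [← Finset.mul_sum]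
  congr 1
  unfold G
  rw [Finset.card_filter]
  push_cast
  apply Finset.sum_congr rfl
  intro P _
  congr!

private lemma G_le_cl (n d : ℕ) : G n d ≤ cl n (d ^ 2) 0 := by
  classical
  unfold G cl
  apply Finset.card_le_card
  intro P hP
  rw [Finset.mem_filter] at hP ⊢
  exact ⟨hP.1, (Nat.modEq_zero_iff_dvd).2 hP.2.2.2⟩

private lemma abs_moebius_le (d : ℕ) : |(ArithmeticFunction.moebius d : ℝ)| ≤ 1 := by
  have h := ArithmeticFunction.abs_moebius_le_one (n := d)
  have h2 : ((|ArithmeticFunction.moebius d| : ℤ) : ℝ) ≤ 1 := by exact_mod_cast h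
  rwa [Int.cast_abs] at h2

/-- E5: the sieve identity. -/
theorem E5 (n z D : ℕ) (hzD : z ≤ D) (hD : D ≤ 10 ^ (n + 1)) :
    |(((Pal n).filter (fun P => Squarefree P)).card : ℝ) -
      ∑ d ∈ (range z).filter (fun d => d.Coprime 10),
        (ArithmeticFunction.moebius d : ℝ) * (G n d : ℝ)| ≤
      ∑ d ∈ (Ico z D).filter (fun d => d.Coprime 10), ((cl n (d ^ 2) 0 : ℕ) : ℝ) +
      ((∑ P ∈ Pal n, ((Ico D (10 ^ (n + 1))).filter (fun d => d ^ 2 ∣ P)).card : ℕ) : ℝ) := by
  classical
  have hsplit : (range (10 ^ (n + 1))).filter (fun d => d.Coprime 10) =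
      ((range z).filter (fun d => d.Coprime 10) ∪ (Ico z D).filter (fun d => d.Coprime 10)) ∪
        (Ico D (10 ^ (n + 1))).filter (fun d => d.Coprime 10) := by
    ext d
    simp only [Finset.mem_filter, Finset.mem_union, Finset.mem_range, Finset.mem_Ico]
    constructor
    · rintro ⟨h1, h2⟩
      rcases lt_or_ge d z with h3 | h3
      · exact Or.inl (Or.inl ⟨h3, h2⟩)
      · rcases lt_or_ge d D with h4 | h4
        · exact Or.inl (Or.inr ⟨⟨h3, h4⟩, h2⟩)
        · exact Or.inr ⟨⟨h4, h1⟩, h2⟩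
    · rintro ((⟨h1, h2⟩ | ⟨⟨h1, h3⟩, h2⟩) | ⟨⟨h1, h3⟩, h2⟩)
      · exact ⟨by omega, h2⟩
      · exact ⟨by omega, h2⟩
      · exact ⟨h3, h2⟩
  have hd1 : Disjoint ((range z).filter (fun d => d.Coprime 10))
      ((Ico z D).filter (fun d => d.Coprime 10)) := by
    rw [Finset.disjoint_left]
    intro d h1 h2
    simp only [Finset.mem_filter, Finset.mem_range, Finset.mem_Ico] at h1 h2
    omega
  have hd2 : Disjoint ((range z).filter (fun d => d.Coprime 10) ∪
      (Ico z D).filter (fun d => d.Coprime 10))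
      ((Ico D (10 ^ (n + 1))).filter (fun d => d.Coprime 10)) := by
    rw [Finset.disjoint_left]
    intro d h1 h2
    simp only [Finset.mem_union, Finset.mem_filter, Finset.mem_range, Finset.mem_Ico] at h1 h2
    omega
  rw [identity, hsplit, Finset.sum_union hd2, Finset.sum_union hd1]
  have e1 : ∀ A B C : ℝ, A + B + C - A = B + C := fun A B C => by ring
  rw [e1]
  refine (abs_add_le _ _).trans (add_le_add ?_ ?_)
  · refine (Finset.abs_sum_le_sum_abs _ _).trans (Finset.sum_le_sum fun d _ => ?_)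
    rw [abs_mul, abs_of_nonneg (a := (G n d : ℝ)) (Nat.cast_nonneg _)]
    calc |(ArithmeticFunction.moebius d : ℝ)| * (G n d : ℝ) ≤ 1 * (G n d : ℝ) :=
          mul_le_mul_of_nonneg_right (abs_moebius_le d) (Nat.cast_nonneg _)
      _ = (G n d : ℝ) := one_mul _
      _ ≤ ((cl n (d ^ 2) 0 : ℕ) : ℝ) := by exact_mod_cast G_le_cl n d
  · refine (Finset.abs_sum_le_sum_abs _ _).trans ?_
    have h1 : ∑ d ∈ (Ico D (10 ^ (n + 1))).filter (fun d => d.Coprime 10),
        |(ArithmeticFunction.moebius d : ℝ) * (G n d : ℝ)| ≤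
        ∑ d ∈ Ico D (10 ^ (n + 1)), (((Pal n).filter (fun P => d ^ 2 ∣ P)).card : ℝ) := by
      refine (Finset.sum_le_sum (g := fun d => (((Pal n).filter (fun P => d ^ 2 ∣ P)).card : ℝ))
        fun d _ => ?_).trans ?_
      · rw [abs_mul, abs_of_nonneg (a := (G n d : ℝ)) (Nat.cast_nonneg _)]
        calc |(ArithmeticFunction.moebius d : ℝ)| * (G n d : ℝ) ≤ 1 * (G n d : ℝ) :=
              mul_le_mul_of_nonneg_right (abs_moebius_le d) (Nat.cast_nonneg _)
          _ = (G n d : ℝ) := one_mul _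
          _ ≤ (((Pal n).filter (fun P => d ^ 2 ∣ P)).card : ℝ) := by
              unfold G
              exact_mod_cast Finset.card_le_card (fun P hP => by
                rw [Finset.mem_filter] at hP ⊢
                exact ⟨hP.1, hP.2.2.2⟩)
      · exact Finset.sum_le_sum_of_subset_of_nonneg (Finset.filter_subset _ _)
          fun _ _ _ => Nat.cast_nonneg _
    refine h1.trans (le_of_eq ?_)
    have h2 : ∑ d ∈ Ico D (10 ^ (n + 1)), ((Pal n).filter (fun P => d ^ 2 ∣ P)).card =
        ∑ P ∈ Pal n, ((Ico D (10 ^ (n + 1))).filter (fun d => d ^ 2 ∣ P)).card := by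
      simp only [Finset.card_filter]
      exact Finset.sum_comm
    rw [← h2]
    push_cast
    rfl

end Pool.Agent.Helper62.SE
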