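import Pool.Agent.Helper62.SE.E1
import Pool.Agent.Helper62.SE.E2
import Pool.Agent.Helper62.SE.E3
import Pool.Agent.Helper8.SQ.Tail

/-! Squarefree palindromes with an error term: the theorem. -/

set_option autoImplicit false

namespace Pool.Agent.Helper62.SE

open Finset Filter Topology Pool.Agent.Helper10 Pool.Agent.Helper10.P5 Pool.Agent.Helper10.P4
  Pool.Agent.Helper10.SQ

private lemma abs_mu (d : ℕ) : |(ArithmeticFunction.moebius d : ℝ)| ≤ 1 := by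
  have h := ArithmeticFunction.abs_moebius_le_one (n := d)
  have h2 : ((|ArithmeticFunction.moebius d| : ℤ) : ℝ) ≤ 1 := by exact_mod_cast h
  rwa [Int.cast_abs] at h2

private lemma exists_H (ρ : ℝ) (h0 : 0 < ρ) (h1 : ρ < 1) :
    ∃ H : ℕ, 4 ≤ H ∧ (10 : ℝ) ^ 600002 * ρ ^ H ≤ 1 := by
  have ht := tendsto_pow_atTop_nhds_zero_of_lt_one h0.le h1
  have hev : ∀ᶠ H : ℕ in atTop, ρ ^ H < ((10 : ℝ) ^ 600002)⁻¹ :=
    ht.eventually (gt_mem_nhds (inv_pos.2 (by positivity)))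
  obtain ⟨N, hN⟩ := eventually_atTop.1 hev
  refine ⟨max N 4, le_max_right _ _, ?_⟩
  have h := (hN (max N 4) (le_max_left _ _)).le
  have hp : (0 : ℝ) < 10 ^ 600002 := by positivity
  calc (10 : ℝ) ^ 600002 * ρ ^ max N 4 ≤ 10 ^ 600002 * ((10 : ℝ) ^ 600002)⁻¹ :=
        mul_le_mul_of_nonneg_left h hp.le
    _ = 1 := mul_inv_cancel₀ hp.ne'

private lemma rho_step (ρ : ℝ) (h0 : 0 < ρ) (h1 : ρ < 1) (H s n : ℕ) (hH : 4 ≤ H) (hs : 1 ≤ s)
    (hn : 1000000 * H * s ^ 2 ≤ n) (hρ : (10 : ℝ) ^ 600002 * ρ ^ H ≤ 1) :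
    ((10 : ℝ) ^ (200000 * s)) ^ 3 * ρ ^ ((n - 2) / (2 * (400000 * s) + 3)) ≤ 1 / 10 ^ s := by
  have hdiv : H * s ≤ (n - 2) / (2 * (400000 * s) + 3) := by
    rw [Nat.le_div_iff_mul_le (by omega)]
    have h2 : H * s * (2 * (400000 * s) + 3) + 2 ≤ 1000000 * H * s ^ 2 := by
      have h3 : 1 ≤ H * s := Nat.mul_pos (by omega) hs
      have h4 : H * s ≤ H * s * s := Nat.le_mul_of_pos_right _ hs
      nlinarith
    omega
  have h2 : ρ ^ ((n - 2) / (2 * (400000 * s) + 3)) ≤ ρ ^ (H * s) :=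
    pow_le_pow_of_le_one h0.le h1.le hdiv
  rw [le_div_iff₀ (by positivity)]
  calc ((10 : ℝ) ^ (200000 * s)) ^ 3 * ρ ^ ((n - 2) / (2 * (400000 * s) + 3)) * 10 ^ s
      ≤ ((10 : ℝ) ^ (200000 * s)) ^ 3 * ρ ^ (H * s) * 10 ^ (2 * s) := by
        apply mul_le_mul (mul_le_mul_of_nonneg_left h2 (by positivity)) _ (by positivity)
          (by positivity)
        exact pow_le_pow_right₀ (by norm_num) (by omega)
    _ = ((10 : ℝ) ^ 600002 * ρ ^ H) ^ s := by
        rw [mul_pow, ← pow_mul, ← pow_mul, ← pow_mul]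
        have : (10 : ℝ) ^ (600002 * s) = 10 ^ (200000 * s * 3) * 10 ^ (2 * s) := by
          rw [← pow_add]
          congr 1
          ring
        rw [this]
        ring
    _ ≤ 1 := pow_le_one₀ (by positivity) hρ

private lemma growth (c : ℝ) (hc : 0 < c) : ∃ n0 : ℕ, ∀ n : ℕ, n0 ≤ n →
    (30000000 : ℝ) * n ≤ Real.exp (c * Real.sqrt n) := by
  have h := isLittleO_pow_exp_pos_mul_atTop (k := 2) hc
  have h2 := h.def (c := 1 / 30000000) (by norm_num)
  have h3 : Tendsto (fun n : ℕ => Real.sqrt (n : ℝ)) atTop atTop :=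
    Real.tendsto_sqrt_atTop.comp tendsto_natCast_atTop_atTop
  obtain ⟨n0, hn0⟩ := eventually_atTop.1 (h3.eventually h2)
  refine ⟨n0, fun n hn => ?_⟩
  have h4 := hn0 n hn
  rw [Real.norm_of_nonneg (by positivity), Real.norm_of_nonneg (Real.exp_pos _).le,
    Real.sq_sqrt (Nat.cast_nonneg n)] at h4
  linarith

/-- one scale -/
private lemma main_step (ρ : ℝ) (h0 : 0 < ρ) (h1 : ρ < 1)
    (hE : ∀ n k d : ℕ, 2 ≤ n → 1 ≤ d → d.Coprime 10 →
      d ^ 2 ≤ 10 ^ k → |(G n d : ℝ) - 34 / 5 * 10 ^ n / (d : ℝ) ^ 2| ≤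
        68 * (10 ^ n * ((d : ℝ) ^ 2 * ρ ^ ((n - 2) / (2 * k + 3)))))
    (H s n : ℕ) (hH : 4 ≤ H) (hs : 1 ≤ s)
    (hn : 1000000 * H * s ^ 2 ≤ n) (hρ : (10 : ℝ) ^ 600002 * ρ ^ H ≤ 1) :
    |(((Pal n).filter (fun P => Squarefree P)).card : ℝ) - 170 / (3 * Real.pi ^ 2) * 10 ^ n| ≤
      (10 : ℝ) ^ n * (10000000 * n / 10 ^ s) := by
  set z : ℕ := 10 ^ (200000 * s) with hz
  have hss : s ≤ s ^ 2 := by nlinarith
  have hns : 4000000 * s ≤ n := by nlinarith
  have hn1 : 1 ≤ n := by omega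
  have hz1 : 1 ≤ z := Nat.one_le_pow _ _ (by norm_num)
  have hD1 : z ≤ 10 ^ (n - n / 10) := Nat.pow_le_pow_right (by norm_num) (by omega)
  have hD2 : 10 ^ (n - n / 10) ≤ 10 ^ (n + 1) := Nat.pow_le_pow_right (by norm_num) (by omega)
  have a1 := E5 n z (10 ^ (n - n / 10)) hD1 hD2
  have a2 := E2 n s hs hns
  have a3 : ((∑ P ∈ Pal n, ((Ico (10 ^ (n - n / 10)) (10 ^ (n + 1))).filter
      (fun d => d ^ 2 ∣ P)).card : ℕ) : ℝ) ≤ 10 ^ n / 10 ^ s := by
    have h2 : ((∑ P ∈ Pal n, ((Ico (10 ^ (n - n / 10)) (10 ^ (n + 1))).filter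
      (fun d => d ^ 2 ∣ P)).card : ℕ) : ℝ) ≤ ((10 ^ (3 * (n / 10) + n / 2 + 3) : ℕ) : ℝ) := by
      exact_mod_cast E3 n
    refine h2.trans ?_
    rw [le_div_iff₀ (by positivity)]
    push_cast
    rw [← pow_add]
    exact pow_le_pow_right₀ (by norm_num) (by omega)
  have a4 : |(∑ d ∈ (range z).filter (fun d => d.Coprime 10),
        (ArithmeticFunction.moebius d : ℝ) * (G n d : ℝ)) -
      34 / 5 * 10 ^ n * ∑ d ∈ (range z).filter (fun d => d.Coprime 10),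
        (ArithmeticFunction.moebius d : ℝ) / (d : ℝ) ^ 2| ≤ 68 * (10 ^ n / 10 ^ s) := by
    rw [Finset.mul_sum, ← Finset.sum_sub_distrib]
    refine (Finset.abs_sum_le_sum_abs _ _).trans ?_
    have hb : ∀ d ∈ (range z).filter (fun d => d.Coprime 10),
        |(ArithmeticFunction.moebius d : ℝ) * (G n d : ℝ) -
          34 / 5 * 10 ^ n * ((ArithmeticFunction.moebius d : ℝ) / (d : ℝ) ^ 2)| ≤
        68 * (10 ^ n * ((z : ℝ) ^ 2 * ρ ^ ((n - 2) / (2 * (400000 * s) + 3)))) := by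
      intro d hd
      rw [Finset.mem_filter, Finset.mem_range] at hd
      have hd1 : 1 ≤ d := by
        rcases Nat.eq_zero_or_pos d with h | h
        · rw [h] at hd
          exact absurd hd.2 (by norm_num)
        · exact h
      have hdz : d ^ 2 ≤ 10 ^ (400000 * s) := by
        calc d ^ 2 ≤ z ^ 2 := Nat.pow_le_pow_left hd.1.le 2
          _ = 10 ^ (400000 * s) := by
              rw [hz, ← pow_mul]
              congr 1
              ring
      have h2 := hE n (400000 * s) d (by omega) hd1 hd.2 hdz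
      have e1 : (ArithmeticFunction.moebius d : ℝ) * (G n d : ℝ) -
          34 / 5 * 10 ^ n * ((ArithmeticFunction.moebius d : ℝ) / (d : ℝ) ^ 2) =
          (ArithmeticFunction.moebius d : ℝ) * ((G n d : ℝ) - 34 / 5 * 10 ^ n / (d : ℝ) ^ 2) := by
        ring
      rw [e1, abs_mul]
      have hdR : (d : ℝ) ≤ z := by exact_mod_cast hd.1.le
      calc |(ArithmeticFunction.moebius d : ℝ)| * |(G n d : ℝ) - 34 / 5 * 10 ^ n / (d : ℝ) ^ 2|
          ≤ 1 * |(G n d : ℝ) - 34 / 5 * 10 ^ n / (d : ℝ) ^ 2| :=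
            mul_le_mul_of_nonneg_right (abs_mu d) (abs_nonneg _)
        _ ≤ 68 * (10 ^ n * ((d : ℝ) ^ 2 * ρ ^ ((n - 2) / (2 * (400000 * s) + 3)))) := by
            rw [one_mul]
            exact h2
        _ ≤ 68 * (10 ^ n * ((z : ℝ) ^ 2 * ρ ^ ((n - 2) / (2 * (400000 * s) + 3)))) := by
            gcongr
    refine (Finset.sum_le_card_nsmul _ _ _ hb).trans ?_
    have hcard : (((range z).filter (fun d => d.Coprime 10)).card : ℝ) ≤ z := by
      have h2 := Finset.card_filter_le (range z) (fun d => d.Coprime 10)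
      rw [Finset.card_range] at h2
      exact_mod_cast h2
    rw [nsmul_eq_mul]
    have hst := rho_step ρ h0 h1 H s n hH hs hn hρ
    have hzR : (z : ℝ) = 10 ^ (200000 * s) := by
      rw [hz]
      push_cast
      rfl
    calc (((range z).filter (fun d => d.Coprime 10)).card : ℝ) *
          (68 * (10 ^ n * ((z : ℝ) ^ 2 * ρ ^ ((n - 2) / (2 * (400000 * s) + 3)))))
        ≤ z * (68 * (10 ^ n * ((z : ℝ) ^ 2 * ρ ^ ((n - 2) / (2 * (400000 * s) + 3))))) :=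
          mul_le_mul_of_nonneg_right hcard (by positivity)
      _ = 68 * (10 ^ n * ((z : ℝ) ^ 3 * ρ ^ ((n - 2) / (2 * (400000 * s) + 3)))) := by ring
      _ ≤ 68 * (10 ^ n * (1 / 10 ^ s)) := by
          rw [hzR]
          gcongr
      _ = 68 * (10 ^ n / 10 ^ s) := by ring
  have a5 : |34 / 5 * 10 ^ n * (∑ d ∈ (range z).filter (fun d => d.Coprime 10),
        (ArithmeticFunction.moebius d : ℝ) / (d : ℝ) ^ 2) -
      170 / (3 * Real.pi ^ 2) * 10 ^ n| ≤ 14 * (10 ^ n / 10 ^ s) := by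
    have h2 := Pool.Agent.Helper8.SQ.moebius_tail z hz1
    have e1 : 34 / 5 * 10 ^ n * (∑ d ∈ (range z).filter (fun d => d.Coprime 10),
          (ArithmeticFunction.moebius d : ℝ) / (d : ℝ) ^ 2) -
        170 / (3 * Real.pi ^ 2) * 10 ^ n =
        34 / 5 * 10 ^ n * ((∑ d ∈ (range z).filter (fun d => d.Coprime 10),
          (ArithmeticFunction.moebius d : ℝ) / (d : ℝ) ^ 2) - 25 / (3 * Real.pi ^ 2)) := by
      ring
    rw [e1, abs_mul, abs_of_pos (by positivity : (0 : ℝ) < 34 / 5 * 10 ^ n)]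
    have hzs : (10 : ℝ) ^ s ≤ z := by
      rw [hz]
      push_cast
      exact pow_le_pow_right₀ (by norm_num) (by omega)
    calc (34 / 5 * 10 ^ n : ℝ) * _ ≤ 34 / 5 * 10 ^ n * (2 / (z : ℝ)) :=
          mul_le_mul_of_nonneg_left h2 (by positivity)
      _ ≤ 34 / 5 * 10 ^ n * (2 / 10 ^ s) := by gcongr
      _ = 68 / 5 * (10 ^ n / 10 ^ s) := by ring
      _ ≤ 14 * (10 ^ n / 10 ^ s) := by
          apply mul_le_mul_of_nonneg_right (by norm_num) (by positivity)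
  have hnR : (1 : ℝ) ≤ n := by exact_mod_cast hn1
  have hpos : (0 : ℝ) < 10 ^ n / 10 ^ s := by positivity
  have e6 : (n : ℝ) * 10 ^ (n + 6) / 10 ^ s = 1000000 * n * (10 ^ n / 10 ^ s) := by
    rw [pow_add]
    ring
  rw [e6] at a2
  have e7 : (10 : ℝ) ^ n * (10000000 * n / 10 ^ s) = 10000000 * n * (10 ^ n / 10 ^ s) := by ring
  rw [e7]
  set Q : ℝ := (((Pal n).filter (fun P => Squarefree P)).card : ℝ) with hQ
  set S1 : ℝ := ∑ d ∈ (range z).filter (fun d => d.Coprime 10),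
        (ArithmeticFunction.moebius d : ℝ) * (G n d : ℝ) with hS1
  set S2 : ℝ := 34 / 5 * 10 ^ n * ∑ d ∈ (range z).filter (fun d => d.Coprime 10),
        (ArithmeticFunction.moebius d : ℝ) / (d : ℝ) ^ 2 with hS2
  have h7 : |Q - 170 / (3 * Real.pi ^ 2) * 10 ^ n| ≤ |Q - S1| + |S1 - S2| +
      |S2 - 170 / (3 * Real.pi ^ 2) * 10 ^ n| := by
    have h8 := abs_add_le (Q - S1 + (S1 - S2)) (S2 - 170 / (3 * Real.pi ^ 2) * 10 ^ n)
    have h9 := abs_add_le (Q - S1) (S1 - S2)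
    have h10 : Q - S1 + (S1 - S2) + (S2 - 170 / (3 * Real.pi ^ 2) * 10 ^ n) =
        Q - 170 / (3 * Real.pi ^ 2) * 10 ^ n := by ring
    rw [h10] at h8
    linarith
  have h11 : |Q - S1| ≤ 1000000 * n * (10 ^ n / 10 ^ s) + 10 ^ n / 10 ^ s := by
    refine a1.trans (add_le_add a2 a3)
  nlinarith

/-- E6: the theorem. -/
theorem E6 : ∃ c : ℝ, 0 < c ∧ ∃ n0 : ℕ, ∀ n : ℕ, n0 ≤ n →
    |(((Pal n).filter (fun P => Squarefree P)).card : ℝ) - 170 / (3 * Real.pi ^ 2) * 10 ^ n| ≤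
      (10 : ℝ) ^ n * Real.exp (-(c * Real.sqrt n)) := by
  obtain ⟨ρ, h0, h1, hE⟩ := E1
  obtain ⟨H, hH, hρ⟩ := exists_H ρ h0 h1
  set K : ℕ := 1000000 * H with hK
  have hK0 : 0 < K := by omega
  have hKR : (0 : ℝ) < K := by exact_mod_cast hK0
  have hg : 0 < Real.sqrt K := Real.sqrt_pos.2 hKR
  have hc : 0 < 1 / (2 * Real.sqrt K) := by positivity
  obtain ⟨n1, hn1⟩ := growth _ hc
  refine ⟨1 / (2 * Real.sqrt K), hc, max n1 K, fun n hn => ?_⟩
  have hn' : n1 ≤ n := (le_max_left _ _).trans hn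
  have hnK : K ≤ n := (le_max_right _ _).trans hn
  set s : ℕ := Nat.sqrt (n / K) with hs
  have hs1 : 1 ≤ s := by
    rw [hs, Nat.le_sqrt]
    rw [Nat.le_div_iff_mul_le hK0]
    omega
  have hs2 : 1000000 * H * s ^ 2 ≤ n := by
    have h2 : s * s ≤ n / K := Nat.sqrt_le _
    rw [Nat.le_div_iff_mul_le hK0] at h2
    calc 1000000 * H * s ^ 2 = s * s * K := by rw [hK]; ring
      _ ≤ n := h2
  refine (main_step ρ h0 h1 hE H s n hH hs1 hs2 hρ).trans ?_
  apply mul_le_mul_of_nonneg_left _ (by positivity)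
  have h3 : (n : ℝ) < K * ((s : ℝ) + 1) ^ 2 := by
    have h2 : n / K < (s + 1) * (s + 1) := Nat.lt_succ_sqrt _
    rw [Nat.div_lt_iff_lt_mul hK0] at h2
    have h4 : (n : ℝ) < (((s + 1) * (s + 1) * K : ℕ) : ℝ) := by exact_mod_cast h2
    refine h4.trans_eq ?_
    push_cast
    ring
  have h4 : Real.sqrt n ≤ Real.sqrt K * ((s : ℝ) + 1) := by
    rw [Real.sqrt_le_left (by positivity), mul_pow, Real.sq_sqrt hKR.le]
    exact h3.le
  have h5 : Real.sqrt n / Real.sqrt K - 1 ≤ s := by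
    rw [sub_le_iff_le_add, div_le_iff₀ hg]
    linarith
  have h6 : Real.exp (Real.sqrt n / Real.sqrt K - 1) ≤ 10 ^ s := by
    calc Real.exp (Real.sqrt n / Real.sqrt K - 1) ≤ Real.exp s := Real.exp_le_exp.2 h5
      _ = Real.exp 1 ^ s := by
          rw [← Real.exp_nat_mul, mul_one]
      _ ≤ 10 ^ s := by
          apply pow_le_pow_left₀ (Real.exp_pos _).le
          have := Real.exp_one_lt_d9
          linarith
  have h7 := hn1 n hn'
  have h8 : (10000000 : ℝ) * n / 10 ^ s ≤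
      10000000 * n / Real.exp (Real.sqrt n / Real.sqrt K - 1) := by
    apply div_le_div_of_nonneg_left (by positivity) (Real.exp_pos _) h6
  refine h8.trans ?_
  rw [div_le_iff₀ (Real.exp_pos _), ← Real.exp_add]
  have h9 : -(1 / (2 * Real.sqrt K) * Real.sqrt n) + (Real.sqrt n / Real.sqrt K - 1) =
      1 / (2 * Real.sqrt K) * Real.sqrt n - 1 := by
    field_simp
    ring
  rw [h9, Real.exp_sub, le_div_iff₀ (Real.exp_pos _)]
  have h10 := Real.exp_one_lt_d9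
  have h11 : (0 : ℝ) ≤ n := Nat.cast_nonneg n
  nlinarith

end Pool.Agent.Helper62.SE
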